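import Mathlib

/-!
# Abstract drawings: the van Kampen property, natural grids, clique models of bounded radius
-/

set_option autoImplicit false

namespace Pool.Agent.Helper234_Grid

open Finset

variable {V : Type}

/-- The van Kampen property of `K_{3,3}`: nine walks joining three vertices to three vertices,
such that independent ones have no common vertex, contain crossing edges on independent walks. -/
def VK (G : SimpleGraph V) (X : Sym2 V → Sym2 V → Prop) : Prop :=
  ∀ (a b : Fin 3 → V) (p : ∀ i j : Fin 3, G.Walk (a i) (b j)),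
    (∀ i j i' j', i ≠ i' → j ≠ j' → ∀ v, v ∈ (p i j).support → v ∉ (p i' j').support) →
    ∃ i j i' j', i ≠ i' ∧ j ≠ j' ∧ ∃ e ∈ (p i j).edges, ∃ f ∈ (p i' j').edges, X e f

/-- A natural `(t, t)`-grid for the crossing relation `X`. -/
def Grid (G : SimpleGraph V) (X : Sym2 V → Sym2 V → Prop) (t : ℕ) : Prop :=
  ∃ e f : Fin t → Sym2 V, (∀ i, e i ∈ G.edgeSet) ∧ (∀ i, f i ∈ G.edgeSet) ∧
    (∀ i j, i ≠ j → ∀ v, v ∈ e i → v ∉ e j) ∧ (∀ i j, i ≠ j → ∀ v, v ∈ f i → v ∉ f j) ∧
    (∀ i j, ∀ v, v ∈ e i → v ∉ f j) ∧ ∀ i j, X (e i) (f j)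

/-- `B` has radius at most `L` around `c`. -/
def RadLe (G : SimpleGraph V) (L : ℕ) (B : Finset V) (c : V) : Prop :=
  c ∈ B ∧ ∀ v ∈ B, ∃ p : G.Walk c v, p.length ≤ L ∧ ∀ w ∈ p.support, w ∈ B

/-- some edge joins `A` and `B` -/
def Touch (G : SimpleGraph V) (A B : Finset V) : Prop := ∃ a ∈ A, ∃ b ∈ B, G.Adj a b

/-- A model of a complete graph with branch sets of radius at most `L`. -/
structure IsModel (G : SimpleGraph V) (L : ℕ) (M : Finset (Finset V)) : Prop where
  rad : ∀ B ∈ M, ∃ c, RadLe G L B c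
  disj : ∀ B ∈ M, ∀ B' ∈ M, B ≠ B' → Disjoint B B'
  touch : ∀ B ∈ M, ∀ B' ∈ M, B ≠ B' → Touch G B B'

theorem Touch.symm {G : SimpleGraph V} {A B : Finset V} (h : Touch G A B) : Touch G B A := by
  obtain ⟨a, ha, b, hb, h⟩ := h
  exact ⟨b, hb, a, ha, h.symm⟩

/-- joining the centres of two touching branch sets -/
theorem exists_walk {G : SimpleGraph V} {L : ℕ} {A B : Finset V} {a b : V}
    (hA : RadLe G L A a) (hB : RadLe G L B b) (h : Touch G A B) :
    ∃ p : G.Walk a b, p.length ≤ 2 * L + 1 ∧ ∀ w ∈ p.support, w ∈ A ∨ w ∈ B := by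
  obtain ⟨x, hx, y, hy, hxy⟩ := h
  obtain ⟨p, hp, hpA⟩ := hA.2 x hx
  obtain ⟨q, hq, hqB⟩ := hB.2 y hy
  refine ⟨p.append (SimpleGraph.Walk.cons hxy q.reverse), ?_, ?_⟩
  · rw [SimpleGraph.Walk.length_append, SimpleGraph.Walk.length_cons,
      SimpleGraph.Walk.length_reverse]
    omega
  · intro w hw
    rw [SimpleGraph.Walk.mem_support_append_iff, SimpleGraph.Walk.support_cons,
      List.mem_cons, SimpleGraph.Walk.support_reverse, List.mem_reverse] at hw
    rcases hw with hw | rfl | hw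
    · exact Or.inl (hpA _ hw)
    · exact Or.inl hx
    · exact Or.inr (hqB _ hw)

end Pool.Agent.Helper234_Grid
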