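import Mathlib

/-!
# Topological graphs and natural grids: definitions
-/

set_option autoImplicit false

namespace Pool.Agent.Helper234_Grid

/-- A topological graph with vertex set `V`: a simple graph (no loops, no multiple edges) drawn in
the plane `ℝ × ℝ`. The vertices are distinct points, every edge is a Jordan arc (the image of an
injective continuous map of the unit interval) joining the points of its two endvertices, and no
edge passes through a vertex other than its endvertices. -/
structure TopologicalGraph (V : Type) where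
  /-- the underlying abstract graph -/
  graph : SimpleGraph V
  /-- the point representing a vertex -/
  pos : V → ℝ × ℝ
  /-- the set of the points of the arc representing an edge -/
  arc : Sym2 V → Set (ℝ × ℝ)
  pos_injective : Function.Injective pos
  isArc : ∀ u v : V, graph.Adj u v → ∃ γ : unitInterval → ℝ × ℝ, Continuous γ ∧
    Function.Injective γ ∧ γ 0 = pos u ∧ γ 1 = pos v ∧ Set.range γ = arc s(u, v)
  avoid : ∀ e ∈ graph.edgeSet, ∀ w : V, pos w ∈ arc e → w ∈ e

variable {V : Type}

/-- Two different edges cross if they have a common point that is an interior point of both arcs,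
that is, a common point that is no endpoint of either of them. -/
def TopologicalGraph.Cross (D : TopologicalGraph V) (e f : Sym2 V) : Prop :=
  e ≠ f ∧ ∃ z : ℝ × ℝ, z ∈ D.arc e ∧ z ∈ D.arc f ∧ (∀ v ∈ e, z ≠ D.pos v) ∧ ∀ v ∈ f, z ≠ D.pos v

/-- A natural `(k, l)`-grid: disjoint sets `E₁`, `E₂` of `k` and of `l` edges, such that every edge
of `E₁` crosses every edge of `E₂` and no two of the `k + l` edges share an endvertex. -/
def TopologicalGraph.HasNaturalGrid (D : TopologicalGraph V) (k l : ℕ) : Prop :=
  ∃ E₁ E₂ : Finset (Sym2 V), (E₁ : Set (Sym2 V)) ⊆ D.graph.edgeSet ∧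
    (E₂ : Set (Sym2 V)) ⊆ D.graph.edgeSet ∧ Disjoint E₁ E₂ ∧ E₁.card = k ∧ E₂.card = l ∧
    (∀ e ∈ E₁, ∀ f ∈ E₂, D.Cross e f) ∧
    ∀ e f : Sym2 V, (e ∈ E₁ ∨ e ∈ E₂) → (f ∈ E₁ ∨ f ∈ E₂) → e ≠ f → ∀ v : V, ¬ (v ∈ e ∧ v ∈ f)

end Pool.Agent.Helper234_Grid
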