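import Pool.Agent.Helper234_Grid.Rec

/-!
# Polynomial bounds for complete models of small radius imply a linear number of edges

Reusable form: if every model of a complete graph in `G` with branch sets of radius at most `L` has
at most `f L` branch sets, `f` bounded by a polynomial, then `G` has a linear number of edges, with a
constant depending only on `f` (Plotkin, Rao and Smith; Lipton, Rose and Tarjan).
-/

set_option autoImplicit false

namespace Pool.Agent.Helper234_Grid

open Finset

theorem PolyBdd.comp_mono {f g : ℕ → ℕ} (hf : PolyBdd f) (hg : PolyBdd g) :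
    PolyBdd fun i => f (g i) := by
  obtain ⟨C, k, hf⟩ := hf
  obtain ⟨D, m, hg'⟩ := hg.add (PolyBdd.const 1)
  refine ⟨C * D ^ k, m * k, fun i => ?_⟩
  calc f (g i) ≤ C * (g i + 1) ^ k := hf _
    _ ≤ C * (D * (i + 1) ^ m) ^ k := Nat.mul_le_mul_left _ (Nat.pow_le_pow_left (hg' i) k)
    _ = C * D ^ k * (i + 1) ^ (m * k) := by rw [mul_pow, ← pow_mul]; ring

/-- **Polynomially bounded shallow complete models give a linear number of edges.** -/
theorem linear_of_models (f : ℕ → ℕ) (hf : PolyBdd f) : ∃ C : ℕ, ∀ (V : Type)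
    (G : SimpleGraph V), (∀ (L : ℕ) (M : Finset (Finset V)), IsModel G L M → M.card ≤ f L) →
    ∀ U : Finset V, ee G U ≤ C * U.card := by
  classical
  let l : ℕ → ℕ := fun i => 24 * (i + 1) ^ 2
  let K : ℕ → ℕ := fun i => l i * (i + 1)
  let h : ℕ → ℕ := fun i => f (2 * K i) + 1
  let a : ℕ → ℕ := fun i => h i * (1 + h i * (2 * K i + 1))
  have hl : PolyBdd l := (PolyBdd.const 24).mul (PolyBdd.succ.pow 2)
  have hK : PolyBdd K := hl.mul PolyBdd.succ
  have hh : PolyBdd h := (hf.comp_mono ((PolyBdd.const 2).mul hK)).add (PolyBdd.const 1)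
  have haP : PolyBdd a := hh.mul ((PolyBdd.const 1).add
    (hh.mul (((PolyBdd.const 2).mul hK).add (PolyBdd.const 1))))
  obtain ⟨i0, hi0⟩ := (hl.mul haP).eventually
  refine ⟨2 * 4 ^ i0, fun V G hG U => ?_⟩
  have hrec := recursion G i0 a (by
    intro i hi U hU1 hU2
    constructor
    · refine separator G U (l i) (K i) (h i) (fun M hM => ?_) ?_
      · exact Nat.lt_succ_of_le (hG (2 * K i) M hM)
      · refine growth_cond U.card (l i) (i + 1) ?_ ?_
        · have : 1 ≤ (i + 1) ^ 2 := Nat.one_le_pow _ _ (by omega)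
          show 1 ≤ 24 * (i + 1) ^ 2
          omega
        · by_contra hcon
          push Not at hcon
          have h1 : 2 ^ (i + 1) * 3 ^ (i + 1) ≤ 4 ^ (i + 1) :=
            (Nat.mul_le_mul_right _ hcon).trans hU2
          rw [← mul_pow] at h1
          have h2 : 4 ^ (i + 1) < (2 * 3) ^ (i + 1) := Nat.pow_lt_pow_left (by norm_num) (by omega)
          omega
    · have h1 := hi0 i hi
      have h2 : l i * a i * 3 ^ i < U.card * 3 ^ i := lt_of_le_of_lt h1 hU1
      exact (lt_of_mul_lt_mul_right h2 (Nat.zero_le _)).le)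
  obtain ⟨i1, hi1⟩ := (PolyBdd.const U.card).eventually
  have h1 := hrec (max i0 i1) (le_max_left _ _) U (hi1 _ (le_max_right _ _))
  have h2 : (ee G U : ℚ) ≤ 2 * 4 ^ i0 * U.card := by
    refine h1.trans ?_
    refine mul_le_mul_of_nonneg_right ?_ (Nat.cast_nonneg _)
    have h3 : (0 : ℚ) ≤ 1 / (((max i0 i1 : ℕ) : ℚ) + 1) := by positivity
    have h4 : (0 : ℚ) ≤ 4 ^ i0 := by positivity
    nlinarith
  exact_mod_cast h2

end Pool.Agent.Helper234_Grid
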