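import Pool.Agent.Helper234_Grid.Sep
import Pool.Agent.Helper234_Grid.NoModel

/-!
# From separators to a linear number of edges
-/

set_option autoImplicit false

namespace Pool.Agent.Helper234_Grid

open Finset

variable {V : Type}

open Classical in
/-- the number of ordered pairs of adjacent vertices inside `U` -/
noncomputable def ee (G : SimpleGraph V) (U : Finset V) : ℕ :=
  ((U ×ˢ U).filter fun p => G.Adj p.1 p.2).card

theorem ee_le_sq (G : SimpleGraph V) (U : Finset V) : ee G U ≤ U.card * U.card := by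
  classical
  rw [ee, ← card_product]
  exact card_filter_le _ _

theorem ee_split [DecidableEq V] (G : SimpleGraph V) (U D S W : Finset V)
    (hU : ∀ v, v ∈ U ↔ v ∈ D ∨ v ∈ S ∨ v ∈ W) (hDW : ∀ d ∈ D, ∀ w ∈ W, ¬ G.Adj d w) :
    ee G U ≤ ee G (D ∪ S) + ee G (W ∪ S) := by
  classical
  rw [ee, ee, ee]
  refine le_trans (card_le_card ?_) (card_union_le _ _)
  rintro ⟨x, y⟩ h
  simp only [mem_filter, mem_product, mem_union] at h ⊢
  obtain ⟨⟨hx, hy⟩, hxy⟩ := h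
  rw [hU] at hx hy
  rcases hx with hx | hx | hx <;> rcases hy with hy | hy | hy
  · exact Or.inl ⟨⟨Or.inl hx, Or.inl hy⟩, hxy⟩
  · exact Or.inl ⟨⟨Or.inl hx, Or.inr hy⟩, hxy⟩
  · exact absurd hxy (hDW x hx y hy)
  · exact Or.inl ⟨⟨Or.inr hx, Or.inl hy⟩, hxy⟩
  · exact Or.inl ⟨⟨Or.inr hx, Or.inr hy⟩, hxy⟩
  · exact Or.inr ⟨⟨Or.inr hx, Or.inl hy⟩, hxy⟩
  · exact absurd hxy.symm (hDW y hy x hx)
  · exact Or.inr ⟨⟨Or.inl hx, Or.inr hy⟩, hxy⟩
  · exact Or.inr ⟨⟨Or.inl hx, Or.inl hy⟩, hxy⟩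

theorem recursion (G : SimpleGraph V) (i0 : ℕ) (a : ℕ → ℕ)
    (hsep : ∀ i, i0 ≤ i → ∀ U : Finset V, 4 ^ i < U.card * 3 ^ i →
      U.card * 3 ^ (i + 1) ≤ 4 ^ (i + 1) →
      HasSep G U (24 * (i + 1) ^ 2) (a i) ∧ 24 * (i + 1) ^ 2 * a i ≤ U.card) :
    ∀ i, i0 ≤ i → ∀ U : Finset V, U.card * 3 ^ i ≤ 4 ^ i →
      (ee G U : ℚ) ≤ 4 ^ i0 * (2 - 1 / (i + 1)) * U.card := by
  classical
  intro i hi
  induction i, hi using Nat.le_induction with
  | base =>
    intro U hU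
    have h1 : (ee G U : ℚ) ≤ U.card * U.card := by exact_mod_cast ee_le_sq G U
    have h2 : (U.card : ℚ) ≤ 4 ^ i0 := by
      have : U.card ≤ 4 ^ i0 := by
        calc U.card = U.card * 1 := (Nat.mul_one _).symm
          _ ≤ U.card * 3 ^ i0 := Nat.mul_le_mul_left _ (Nat.one_le_pow _ _ (by norm_num))
          _ ≤ 4 ^ i0 := hU
      exact_mod_cast this
    have h3 : (1 : ℚ) / ((i0 : ℚ) + 1) ≤ 1 := by
      rw [div_le_one (by positivity)]; linarith [Nat.cast_nonneg (α := ℚ) i0]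
    have h4 : (0 : ℚ) ≤ U.card := Nat.cast_nonneg _
    have h5 : (0 : ℚ) ≤ 4 ^ i0 := by positivity
    calc (ee G U : ℚ) ≤ U.card * U.card := h1
      _ ≤ 4 ^ i0 * U.card := mul_le_mul_of_nonneg_right h2 h4
      _ ≤ 4 ^ i0 * (2 - 1 / ((i0 : ℚ) + 1)) * U.card := by
          refine mul_le_mul_of_nonneg_right ?_ h4
          nlinarith
  | succ i hi ih =>
    intro U hU
    have hn : (0 : ℚ) ≤ U.card := Nat.cast_nonneg _
    have hiq : (0 : ℚ) ≤ i := Nat.cast_nonneg _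
    have h40 : (0 : ℚ) < 4 ^ i0 := by positivity
    -- the constants
    have hF : (2 - 1 / ((i : ℚ) + 1)) * (1 + 1 / (12 * ((i : ℚ) + 1) ^ 2)) ≤
        2 - 1 / (((i + 1 : ℕ) : ℚ) + 1) := by
      push_cast
      have e1 : (2 - 1 / ((i : ℚ) + 1)) * (1 + 1 / (12 * ((i : ℚ) + 1) ^ 2)) ≤
          2 - 1 / ((i : ℚ) + 1) + 2 / (12 * ((i : ℚ) + 1) ^ 2) := by
        have h1 : (0 : ℚ) ≤ 1 / ((i : ℚ) + 1) := by positivity
        have h2 : (0 : ℚ) ≤ 1 / (12 * ((i : ℚ) + 1) ^ 2) := by positivity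
        have h3 : (2 : ℚ) / (12 * ((i : ℚ) + 1) ^ 2) = 2 * (1 / (12 * ((i : ℚ) + 1) ^ 2)) := by
          ring
        rw [h3]
        nlinarith
      have e2 : 1 / ((i : ℚ) + 1) - 1 / ((i : ℚ) + 1 + 1) = 1 / (((i : ℚ) + 1) * ((i : ℚ) + 2)) := by
        field_simp
        ring
      have e3 : (2 : ℚ) / (12 * ((i : ℚ) + 1) ^ 2) ≤ 1 / (((i : ℚ) + 1) * ((i : ℚ) + 2)) := by
        rw [div_le_div_iff₀ (by positivity) (by positivity)]
        nlinarith
      linarith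
    have hFmono : (2 - 1 / ((i : ℚ) + 1)) ≤ 2 - 1 / (((i + 1 : ℕ) : ℚ) + 1) := by
      push_cast
      have : 1 / ((i : ℚ) + 1 + 1) ≤ 1 / ((i : ℚ) + 1) :=
        one_div_le_one_div_of_le (by positivity) (by linarith)
      linarith
    by_cases hsmall : U.card * 3 ^ i ≤ 4 ^ i
    · refine (ih U hsmall).trans ?_
      exact mul_le_mul_of_nonneg_right (mul_le_mul_of_nonneg_left hFmono h40.le) hn
    push Not at hsmall
    obtain ⟨⟨D, S, W, hU', hsum, hDW, hD3, hW3, hS⟩, ha⟩ := hsep i hi U hsmall hU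
    have hl : 24 * (i + 1) ^ 2 * S.card ≤ 2 * U.card := by omega
    have hl1 : 1 ≤ (i + 1) ^ 2 := Nat.one_le_pow _ _ (by omega)
    have hS12 : 12 * S.card ≤ U.card := by
      have : 24 * S.card ≤ 24 * (i + 1) ^ 2 * S.card := by nlinarith
      omega
    have hDS : (D ∪ S).card ≤ D.card + S.card := card_union_le _ _
    have hWS : (W ∪ S).card ≤ W.card + S.card := card_union_le _ _
    have hDS' : 4 * (D ∪ S).card ≤ 3 * U.card := by omega
    have hWS' : 4 * (W ∪ S).card ≤ 3 * U.card := by omega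
    have hpow : ∀ Y : Finset V, 4 * Y.card ≤ 3 * U.card → Y.card * 3 ^ i ≤ 4 ^ i := by
      intro Y hY
      have h1 : 4 * (Y.card * 3 ^ i) ≤ 4 * 4 ^ i := by
        calc 4 * (Y.card * 3 ^ i) = (4 * Y.card) * 3 ^ i := by ring
          _ ≤ (3 * U.card) * 3 ^ i := Nat.mul_le_mul_right _ hY
          _ = U.card * 3 ^ (i + 1) := by ring
          _ ≤ 4 ^ (i + 1) := hU
          _ = 4 * 4 ^ i := by ring
      omega
    have h1 := ih (D ∪ S) (hpow _ hDS')
    have h2 := ih (W ∪ S) (hpow _ hWS')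
    have h3 : (ee G U : ℚ) ≤ ee G (D ∪ S) + ee G (W ∪ S) := by
      exact_mod_cast ee_split G U D S W hU' hDW
    have h4 : ((D ∪ S).card : ℚ) + (W ∪ S).card ≤ U.card * (1 + 1 / (12 * ((i : ℚ) + 1) ^ 2)) := by
      have e1 : ((D ∪ S).card : ℚ) + (W ∪ S).card ≤ U.card + S.card := by
        exact_mod_cast (by omega : (D ∪ S).card + (W ∪ S).card ≤ U.card + S.card)
      have e2 : (S.card : ℚ) ≤ U.card * (1 / (12 * ((i : ℚ) + 1) ^ 2)) := by
        rw [mul_one_div, le_div_iff₀ (by positivity)]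
        have : (24 * ((i : ℚ) + 1) ^ 2 * S.card) ≤ 2 * U.card := by exact_mod_cast hl
        linarith
      linarith
    have hF0 : (0 : ℚ) ≤ 2 - 1 / ((i : ℚ) + 1) := by
      have : (1 : ℚ) / ((i : ℚ) + 1) ≤ 1 := by
        rw [div_le_one (by positivity)]; linarith
      linarith
    calc (ee G U : ℚ) ≤ ee G (D ∪ S) + ee G (W ∪ S) := h3
      _ ≤ 4 ^ i0 * (2 - 1 / ((i : ℚ) + 1)) * (D ∪ S).card +
          4 ^ i0 * (2 - 1 / ((i : ℚ) + 1)) * (W ∪ S).card := add_le_add h1 h2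
      _ = 4 ^ i0 * (2 - 1 / ((i : ℚ) + 1)) * (((D ∪ S).card : ℚ) + (W ∪ S).card) := by ring
      _ ≤ 4 ^ i0 * (2 - 1 / ((i : ℚ) + 1)) * (U.card * (1 + 1 / (12 * ((i : ℚ) + 1) ^ 2))) :=
          mul_le_mul_of_nonneg_left h4 (by positivity)
      _ = 4 ^ i0 * ((2 - 1 / ((i : ℚ) + 1)) * (1 + 1 / (12 * ((i : ℚ) + 1) ^ 2))) * U.card := by
          ring
      _ ≤ 4 ^ i0 * (2 - 1 / (((i + 1 : ℕ) : ℚ) + 1)) * U.card :=
          mul_le_mul_of_nonneg_right (mul_le_mul_of_nonneg_left hF h40.le) hn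

/-! ### Polynomially bounded functions -/

/-- `f` is bounded by a polynomial. -/
def PolyBdd (f : ℕ → ℕ) : Prop := ∃ C k : ℕ, ∀ i, f i ≤ C * (i + 1) ^ k

theorem PolyBdd.const (c : ℕ) : PolyBdd fun _ => c := ⟨c, 0, fun i => by simp⟩

theorem PolyBdd.succ : PolyBdd fun i => i + 1 := ⟨1, 1, fun i => by simp⟩

theorem PolyBdd.add {f g : ℕ → ℕ} (hf : PolyBdd f) (hg : PolyBdd g) :
    PolyBdd fun i => f i + g i := by
  obtain ⟨C, k, hf⟩ := hf
  obtain ⟨C', k', hg⟩ := hg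
  refine ⟨C + C', k + k', fun i => ?_⟩
  have h1 : (i + 1) ^ k ≤ (i + 1) ^ (k + k') := Nat.pow_le_pow_right (by omega) (by omega)
  have h2 : (i + 1) ^ k' ≤ (i + 1) ^ (k + k') := Nat.pow_le_pow_right (by omega) (by omega)
  calc f i + g i ≤ C * (i + 1) ^ k + C' * (i + 1) ^ k' := Nat.add_le_add (hf i) (hg i)
    _ ≤ C * (i + 1) ^ (k + k') + C' * (i + 1) ^ (k + k') :=
        Nat.add_le_add (Nat.mul_le_mul_left _ h1) (Nat.mul_le_mul_left _ h2)
    _ = (C + C') * (i + 1) ^ (k + k') := by ring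

theorem PolyBdd.mul {f g : ℕ → ℕ} (hf : PolyBdd f) (hg : PolyBdd g) :
    PolyBdd fun i => f i * g i := by
  obtain ⟨C, k, hf⟩ := hf
  obtain ⟨C', k', hg⟩ := hg
  refine ⟨C * C', k + k', fun i => ?_⟩
  calc f i * g i ≤ (C * (i + 1) ^ k) * (C' * (i + 1) ^ k') := Nat.mul_le_mul (hf i) (hg i)
    _ = C * C' * (i + 1) ^ (k + k') := by ring

theorem PolyBdd.pow {f : ℕ → ℕ} (hf : PolyBdd f) (t : ℕ) : PolyBdd fun i => f i ^ t := by
  induction t with
  | zero => simpa using PolyBdd.const 1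
  | succ t ih => simpa [pow_succ] using ih.mul hf

theorem PolyBdd.eventually {f : ℕ → ℕ} (hf : PolyBdd f) :
    ∃ i0 : ℕ, ∀ i, i0 ≤ i → f i * 3 ^ i ≤ 4 ^ i := by
  obtain ⟨C, k, hf⟩ := hf
  have h1 := tendsto_pow_const_div_const_pow_of_one_lt k (show (1 : ℝ) < 4 / 3 by norm_num)
  have h2 := (Filter.tendsto_add_atTop_iff_nat 1).2 h1
  have h3 : (0 : ℝ) < 1 / ((C + 1) * (4 / 3)) := by positivity
  have h4 := h2.eventually (gt_mem_nhds h3)
  obtain ⟨i0, hi0⟩ := Filter.eventually_atTop.1 h4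
  refine ⟨i0, fun i hi => ?_⟩
  have h5 := hi0 i hi
  rw [div_lt_div_iff₀ (by positivity) (by positivity)] at h5
  push_cast at h5
  have h6 : (C : ℝ) * ((i : ℝ) + 1) ^ k * 3 ^ i ≤ 4 ^ i := by
    have e1 : ((4 : ℝ) / 3) ^ (i + 1) = 4 ^ i / 3 ^ i * (4 / 3) := by
      rw [pow_succ, div_pow]
    rw [e1] at h5
    have e2 : ((i : ℝ) + 1) ^ k * (C + 1) < 4 ^ i / 3 ^ i := by
      have : ((i : ℝ) + 1) ^ k * (C + 1) * (4 / 3) < 4 ^ i / 3 ^ i * (4 / 3) := by linarith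
      exact lt_of_mul_lt_mul_right this (by norm_num)
    rw [lt_div_iff₀ (by positivity)] at e2
    have e3 : (0 : ℝ) ≤ ((i : ℝ) + 1) ^ k * 3 ^ i := by positivity
    nlinarith
  have h7 : C * (i + 1) ^ k * 3 ^ i ≤ 4 ^ i := by exact_mod_cast h6
  exact (Nat.mul_le_mul_right _ (hf i)).trans h7

theorem two_mul_pow_le (l : ℕ) (hl : 1 ≤ l) : 2 * l ^ l ≤ (l + 1) ^ l := by
  have hlq : (0 : ℚ) < l := by exact_mod_cast hl
  have h := one_add_mul_le_pow (a := (1 : ℚ) / l) (by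
    have : (0 : ℚ) ≤ 1 / l := by positivity
    linarith) l
  have h1 : (l : ℚ) * (1 / l) = 1 := by field_simp
  rw [h1] at h
  have h2 : (2 : ℚ) * l ^ l ≤ (l + 1) ^ l := by
    calc (2 : ℚ) * l ^ l = (1 + 1) * l ^ l := by ring
      _ ≤ (1 + 1 / l) ^ l * l ^ l := mul_le_mul_of_nonneg_right h (by positivity)
      _ = (l + 1) ^ l := by
          rw [← mul_pow]; congr 1; field_simp
  exact_mod_cast h2

theorem growth_cond (n l j : ℕ) (hl : 1 ≤ l) (hn : n < 2 ^ j) :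
    n * l ^ (l * j) < (l + 1) ^ (l * j) := by
  have h1 : 2 ^ j * l ^ (l * j) ≤ (l + 1) ^ (l * j) := by
    calc 2 ^ j * l ^ (l * j) = (2 * l ^ l) ^ j := by rw [mul_pow, ← pow_mul]
      _ ≤ ((l + 1) ^ l) ^ j := Nat.pow_le_pow_left (two_mul_pow_le l hl) j
      _ = (l + 1) ^ (l * j) := by rw [← pow_mul]
  have h2 : 0 < l ^ (l * j) := Nat.pow_pos (by omega)
  exact lt_of_lt_of_le (Nat.mul_lt_mul_of_pos_right hn h2) h1

/-- **The combinatorial theorem**: a graph with a crossing relation with the van Kampen property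
and without natural `(t, t)`-grid has a linear number of edges. -/
theorem linear (t : ℕ) (ht : 1 ≤ t) : ∃ C : ℕ, ∀ (V : Type) (G : SimpleGraph V)
    (X : Sym2 V → Sym2 V → Prop), VK G X → ¬ Grid G X t →
    ∀ U : Finset V, ee G U ≤ C * U.card := by
  classical
  -- the parameters
  let l : ℕ → ℕ := fun i => 24 * (i + 1) ^ 2
  let K : ℕ → ℕ := fun i => l i * (i + 1)
  let h : ℕ → ℕ := fun i => 6 * NB t (2 * (2 * K i) + 1)
  let a : ℕ → ℕ := fun i => h i * (1 + h i * (2 * K i + 1))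
  have hl : PolyBdd l := (PolyBdd.const 24).mul (PolyBdd.succ.pow 2)
  have hK : PolyBdd K := hl.mul PolyBdd.succ
  have hm : PolyBdd fun i => 2 * (2 * K i) + 1 :=
    ((PolyBdd.const 2).mul ((PolyBdd.const 2).mul hK)).add (PolyBdd.const 1)
  have hNB : PolyBdd fun i => NB t (2 * (2 * K i) + 1) := by
    unfold NB
    exact ((((PolyBdd.const 81).mul (hm.pow 2)).pow t).mul
      (PolyBdd.const ((2 * t) ^ t * t * 2 ^ (2 * t - 1)))).add (PolyBdd.const 1)
  have hh : PolyBdd h := (PolyBdd.const 6).mul hNB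
  have haP : PolyBdd a := hh.mul ((PolyBdd.const 1).add
    (hh.mul (((PolyBdd.const 2).mul hK).add (PolyBdd.const 1))))
  obtain ⟨i0, hi0⟩ := (hl.mul haP).eventually
  refine ⟨2 * 4 ^ i0, fun V G X hVK hgrid U => ?_⟩
  have hrec := recursion G i0 a (by
    intro i hi U hU1 hU2
    constructor
    · refine separator G U (l i) (K i) (h i) (fun M hM => ?_) ?_
      · exact card_lt_of_model G X hVK t ht hgrid (2 * K i) M hM
      · refine growth_cond U.card (l i) (i + 1) ?_ ?_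
        · have : 1 ≤ (i + 1) ^ 2 := Nat.one_le_pow _ _ (by omega)
          show 1 ≤ 24 * (i + 1) ^ 2
          omega
        · by_contra hcon
          push Not at hcon
          have h1 : 2 ^ (i + 1) * 3 ^ (i + 1) ≤ 4 ^ (i + 1) :=
            (Nat.mul_le_mul_right _ hcon).trans hU2
          rw [← mul_pow] at h1
          have h2 : 4 ^ (i + 1) < (2 * 3) ^ (i + 1) := Nat.pow_lt_pow_left (by norm_num) (by omega)
          omega
    · have h1 := hi0 i hi
      have h2 : l i * a i * 3 ^ i < U.card * 3 ^ i := lt_of_le_of_lt h1 hU1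
      exact (lt_of_mul_lt_mul_right h2 (Nat.zero_le _)).le)
  -- choose a large scale
  obtain ⟨i1, hi1⟩ := (PolyBdd.const U.card).eventually
  have h1 := hrec (max i0 i1) (le_max_left _ _) U (hi1 _ (le_max_right _ _))
  have h2 : (ee G U : ℚ) ≤ 2 * 4 ^ i0 * U.card := by
    refine h1.trans ?_
    refine mul_le_mul_of_nonneg_right ?_ (Nat.cast_nonneg _)
    have h3 : (0 : ℚ) ≤ 1 / (((max i0 i1 : ℕ) : ℚ) + 1) := by positivity
    have h4 : (0 : ℚ) ≤ 4 ^ i0 := by positivity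
    nlinarith
  exact_mod_cast h2

end Pool.Agent.Helper234_Grid
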