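import Pool.Agent.Helper234_Grid.Abs

/-!
# Separators in graphs without large complete models of small radius

The argument of Plotkin, Rao and Smith.
-/

set_option autoImplicit false

namespace Pool.Agent.Helper234_Grid

open Finset

variable {V : Type}

open Classical in
/-- the ball of radius `k` around `r` in the subgraph induced on `W` -/
noncomputable def ball (G : SimpleGraph V) (W : Finset V) (r : V) : ℕ → Finset V
  | 0 => {r}
  | k + 1 => ball G W r k ∪ W.filter (fun w => ∃ u ∈ ball G W r k, G.Adj u w)

section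

variable {G : SimpleGraph V} {W : Finset V} {r : V}

theorem ball_subset (hr : r ∈ W) (k : ℕ) : ball G W r k ⊆ W := by
  classical
  induction k with
  | zero => simpa [ball] using hr
  | succ k ih => exact union_subset ih (filter_subset _ _)

theorem ball_mono (k : ℕ) : ball G W r k ⊆ ball G W r (k + 1) := by
  classical
  exact subset_union_left

theorem ball_nbr {k : ℕ} {u w : V} (hu : u ∈ ball G W r k) (hw : w ∈ W) (h : G.Adj u w) :
    w ∈ ball G W r (k + 1) := by
  classical
  exact mem_union_right _ (mem_filter.2 ⟨hw, u, hu, h⟩)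

theorem ball_walk (hr : r ∈ W) (k : ℕ) : ∀ v ∈ ball G W r k,
    ∃ p : G.Walk r v, p.length ≤ k ∧ ∀ w ∈ p.support, w ∈ W := by
  classical
  induction k with
  | zero =>
    intro v hv
    have : v = r := by simpa [ball] using hv
    subst this
    exact ⟨SimpleGraph.Walk.nil, le_refl _, fun w hw => by
      rw [SimpleGraph.Walk.support_nil, List.mem_singleton] at hw
      rw [hw]; exact hr⟩
  | succ k ih =>
    intro v hv
    rcases mem_union.1 hv with h | h
    · obtain ⟨p, hp, hps⟩ := ih v h
      exact ⟨p, by omega, hps⟩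
    · obtain ⟨hvW, u, hu, huv⟩ := mem_filter.1 h
      obtain ⟨p, hp, hps⟩ := ih u hu
      refine ⟨p.concat huv, ?_, ?_⟩
      · rw [SimpleGraph.Walk.length_concat]; omega
      · intro w hw
        rw [SimpleGraph.Walk.support_concat, List.mem_append, List.mem_singleton] at hw
        rcases hw with hw | rfl
        · exact hps w hw
        · exact hvW

theorem ball_growth [DecidableEq V] (hr : r ∈ W) (l K : ℕ)
    (hK : W.card * l ^ K < (l + 1) ^ K) :
    ∃ k < K, l * (ball G W r (k + 1) \ ball G W r k).card ≤ (ball G W r k).card := by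
  by_contra hcon
  push Not at hcon
  have h : ∀ k ≤ K, (l + 1) ^ k ≤ l ^ k * (ball G W r k).card := by
    intro k
    induction k with
    | zero => intro _; simp [ball]
    | succ k ih =>
      intro hk
      have h1 := ih (by omega)
      have h2 := hcon k (by omega)
      have h3 : (ball G W r (k + 1)).card =
          (ball G W r k).card + (ball G W r (k + 1) \ ball G W r k).card := by
        rw [card_sdiff_of_subset (ball_mono k)]
        have := card_le_card (ball_mono (G := G) (W := W) (r := r) k)
        omega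
      have h4 : (l + 1) * (ball G W r k).card ≤ l * (ball G W r (k + 1)).card := by
        rw [h3]; nlinarith
      calc (l + 1) ^ (k + 1) = (l + 1) * (l + 1) ^ k := by ring
        _ ≤ (l + 1) * (l ^ k * (ball G W r k).card) := Nat.mul_le_mul_left _ h1
        _ = l ^ k * ((l + 1) * (ball G W r k).card) := by ring
        _ ≤ l ^ k * (l * (ball G W r (k + 1)).card) := Nat.mul_le_mul_left _ h4
        _ = l ^ (k + 1) * (ball G W r (k + 1)).card := by ring
  have h1 := h K le_rfl
  have h2 : l ^ K * (ball G W r K).card ≤ l ^ K * W.card :=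
    Nat.mul_le_mul_left _ (card_le_card (ball_subset hr K))
  have h3 : W.card * l ^ K = l ^ K * W.card := Nat.mul_comm _ _
  omega

end

/-- The conclusion of the separator theorem. -/
def HasSep (G : SimpleGraph V) (U : Finset V) (l a : ℕ) : Prop :=
  ∃ D S W : Finset V, (∀ v, v ∈ U ↔ v ∈ D ∨ v ∈ S ∨ v ∈ W) ∧
    D.card + S.card + W.card ≤ U.card ∧ (∀ d ∈ D, ∀ w ∈ W, ¬ G.Adj d w) ∧
    3 * D.card ≤ 2 * U.card ∧ 3 * W.card ≤ 2 * U.card ∧ l * S.card ≤ U.card + l * a

/-- The states of the algorithm. -/
structure St (G : SimpleGraph V) (U : Finset V) (l K s : ℕ) (D S W : Finset V)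
    (M : Finset (Finset V)) : Prop where
  cover : ∀ v, v ∈ U ↔ v ∈ D ∨ v ∈ S ∨ v ∈ W ∨ ∃ B ∈ M, v ∈ B
  DW : ∀ v ∈ D, v ∉ W
  MW : ∀ B ∈ M, ∀ v ∈ B, v ∉ W
  adj : ∀ d ∈ D, ∀ w ∈ W, ¬ G.Adj d w
  cardS : l * S.card ≤ D.card
  sum : D.card + S.card + W.card + ∑ B ∈ M, B.card ≤ U.card
  D3 : 3 * D.card ≤ 2 * U.card
  model : IsModel G (2 * K) M
  small : ∀ B ∈ M, B.card ≤ s

theorem sep_aux (G : SimpleGraph V) (U : Finset V) (l K h s : ℕ)
    (hno : ∀ M : Finset (Finset V), IsModel G (2 * K) M → M.card < h)
    (hs : 1 + h * (2 * K + 1) ≤ s) (hK : U.card * l ^ K < (l + 1) ^ K) :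
    ∀ (μ : ℕ) (D S W : Finset V) (M : Finset (Finset V)), W.card * (h + 1) + M.card ≤ μ →
      St G U l K s D S W M → HasSep G U l (h * s) := by
  classical
  intro μ
  induction μ using Nat.strong_induction_on with
  | _ μ ih =>
  intro D S W M hμ st
  have hMh : M.card < h := hno M st.model
  by_cases hW : 3 * W.card ≤ 2 * U.card
  · -- finished
    have h1 : (S ∪ M.biUnion id).card ≤ S.card + ∑ B ∈ M, B.card :=
      (card_union_le _ _).trans (Nat.add_le_add_left card_biUnion_le _)
    have h2 : ∑ B ∈ M, B.card ≤ h * s :=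
      (Finset.sum_le_card_nsmul _ _ _ st.small).trans (by
        rw [smul_eq_mul]; exact Nat.mul_le_mul_right _ hMh.le)
    refine ⟨D, S ∪ M.biUnion id, W, ?_, ?_, st.adj, st.D3, hW, ?_⟩
    · intro v
      rw [st.cover v, mem_union, mem_biUnion]
      simp only [id]
      constructor
      · rintro (h | h | h | h)
        · exact Or.inl h
        · exact Or.inr (Or.inl (Or.inl h))
        · exact Or.inr (Or.inr h)
        · exact Or.inr (Or.inl (Or.inr h))
      · rintro (h | (h | h) | h)
        · exact Or.inl h
        · exact Or.inr (Or.inl h)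
        · exact Or.inr (Or.inr (Or.inr h))
        · exact Or.inr (Or.inr (Or.inl h))
    · have := st.sum; omega
    · have h3 := st.cardS
      have h4 := st.sum
      calc l * (S ∪ M.biUnion id).card ≤ l * (S.card + h * s) := Nat.mul_le_mul_left _ (by omega)
        _ = l * S.card + l * (h * s) := by ring
        _ ≤ U.card + l * (h * s) := by omega
  push Not at hW
  by_cases hT : ∃ B ∈ M, ¬ Touch G B W
  · -- a branch set without neighbours in `W`
    obtain ⟨B, hB, hBW⟩ := hT
    have hsum : ∑ B' ∈ M.erase B, B'.card + B.card = ∑ B' ∈ M, B'.card :=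
      Finset.sum_erase_add _ _ hB
    have hMc : (M.erase B).card = M.card - 1 := card_erase_of_mem hB
    have hMpos : 0 < M.card := card_pos.2 ⟨B, hB⟩
    have hDB := card_union_le D B
    have hDD : D.card ≤ (D ∪ B).card := card_le_card subset_union_left
    have hs1 := st.sum
    refine ih (W.card * (h + 1) + (M.erase B).card) (by omega) (D ∪ B) S W (M.erase B) le_rfl
      ⟨?_, ?_, ?_, ?_, ?_, ?_, ?_, ?_, ?_⟩
    · intro v
      rw [st.cover v, mem_union]
      constructor
      · rintro (h | h | h | ⟨B', hB', h⟩)
        · exact Or.inl (Or.inl h)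
        · exact Or.inr (Or.inl h)
        · exact Or.inr (Or.inr (Or.inl h))
        · by_cases hBB : B' = B
          · subst hBB; exact Or.inl (Or.inr h)
          · exact Or.inr (Or.inr (Or.inr ⟨B', mem_erase.2 ⟨hBB, hB'⟩, h⟩))
      · rintro ((h | h) | h | h | ⟨B', hB', h⟩)
        · exact Or.inl h
        · exact Or.inr (Or.inr (Or.inr ⟨B, hB, h⟩))
        · exact Or.inr (Or.inl h)
        · exact Or.inr (Or.inr (Or.inl h))
        · exact Or.inr (Or.inr (Or.inr ⟨B', mem_of_mem_erase hB', h⟩))
    · intro v hv
      rcases mem_union.1 hv with h | h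
      · exact st.DW v h
      · exact st.MW B hB v h
    · intro B' hB'
      exact st.MW B' (mem_of_mem_erase hB')
    · intro d hd w hw hdw
      rcases mem_union.1 hd with h | h
      · exact st.adj d h w hw hdw
      · exact hBW ⟨d, h, w, hw, hdw⟩
    · exact st.cardS.trans hDD
    · omega
    · omega
    · exact ⟨fun B' hB' => st.model.rad B' (mem_of_mem_erase hB'),
        fun B' hB' B'' hB'' => st.model.disj B' (mem_of_mem_erase hB') B'' (mem_of_mem_erase hB''),
        fun B' hB' B'' hB'' => st.model.touch B' (mem_of_mem_erase hB') B''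
          (mem_of_mem_erase hB'')⟩
    · intro B' hB'
      exact st.small B' (mem_of_mem_erase hB')
  push Not at hT
  have hWU : W.card ≤ U.card := by have := st.sum; omega
  have hKW : W.card * l ^ K < (l + 1) ^ K :=
    lt_of_le_of_lt (Nat.mul_le_mul_right _ hWU) hK
  by_cases hcut : ∃ r ∈ W, ∃ k, l * (ball G W r (k + 1) \ ball G W r k).card ≤
      (ball G W r k).card ∧ 2 * (ball G W r k).card ≤ W.card
  · -- cut off a ball
    obtain ⟨r, hr, k, hk1, hk2⟩ := hcut
    set A := ball G W r k with hA
    set A' := ball G W r (k + 1) with hA'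
    have hAA' : A ⊆ A' := ball_mono k
    have hA'W : A' ⊆ W := ball_subset hr (k + 1)
    have hAW : A ⊆ W := hAA'.trans hA'W
    have hApos : 0 < A.card := by
      refine card_pos.2 ⟨r, ?_⟩
      have : ∀ j, r ∈ ball G W r j := by
        intro j
        induction j with
        | zero => simp [ball]
        | succ j ihj => exact ball_mono j ihj
      exact this k
    have hdisj : Disjoint D A := by
      rw [Finset.disjoint_left]
      exact fun v hv hv' => st.DW v hv (hAW hv')
    have hDA : (D ∪ A).card = D.card + A.card := card_union_of_disjoint hdisj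
    have hSA : (S ∪ (A' \ A)).card ≤ S.card + (A' \ A).card := card_union_le _ _
    have hcA : (A' \ A).card = A'.card - A.card := card_sdiff_of_subset hAA'
    have hcW : (W \ A').card = W.card - A'.card := card_sdiff_of_subset hA'W
    have hle1 : A.card ≤ A'.card := card_le_card hAA'
    have hle2 : A'.card ≤ W.card := card_le_card hA'W
    have hs1 := st.sum
    have hlt : (W \ A').card * (h + 1) + M.card < W.card * (h + 1) + M.card := by
      have : (W \ A').card < W.card := by omega
      have := Nat.mul_lt_mul_of_pos_right this (show 0 < h + 1 by omega)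
      omega
    refine ih ((W \ A').card * (h + 1) + M.card) (by omega) (D ∪ A) (S ∪ (A' \ A)) (W \ A') M
      le_rfl ⟨?_, ?_, ?_, ?_, ?_, ?_, ?_, st.model, st.small⟩
    · intro v
      rw [st.cover v, mem_union, mem_union, mem_sdiff, mem_sdiff]
      constructor
      · rintro (h | h | h | h)
        · exact Or.inl (Or.inl h)
        · exact Or.inr (Or.inl (Or.inl h))
        · by_cases h1 : v ∈ A
          · exact Or.inl (Or.inr h1)
          · by_cases h2 : v ∈ A'
            · exact Or.inr (Or.inl (Or.inr ⟨h2, h1⟩))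
            · exact Or.inr (Or.inr (Or.inl ⟨h, h2⟩))
        · exact Or.inr (Or.inr (Or.inr h))
      · rintro ((h | h) | (h | h) | h | h)
        · exact Or.inl h
        · exact Or.inr (Or.inr (Or.inl (hAW h)))
        · exact Or.inr (Or.inl h)
        · exact Or.inr (Or.inr (Or.inl (hA'W h.1)))
        · exact Or.inr (Or.inr (Or.inl h.1))
        · exact Or.inr (Or.inr (Or.inr h))
    · intro v hv hv'
      rw [mem_sdiff] at hv'
      rcases mem_union.1 hv with h | h
      · exact st.DW v h hv'.1
      · exact hv'.2 (hAA' h)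
    · intro B hB v hv hv'
      exact st.MW B hB v hv (mem_sdiff.1 hv').1
    · intro d hd w hw hdw
      rw [mem_sdiff] at hw
      rcases mem_union.1 hd with h | h
      · exact st.adj d h w hw.1 hdw
      · exact hw.2 (ball_nbr h hw.1 hdw)
    · have h1 := st.cardS
      rw [hDA]
      calc l * (S ∪ (A' \ A)).card ≤ l * (S.card + (A' \ A).card) := Nat.mul_le_mul_left _ hSA
        _ = l * S.card + l * (A' \ A).card := by ring
        _ ≤ D.card + A.card := by omega
    · omega
    · omega
  · -- all balls are large: a new branch set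
    push Not at hcut
    have hbig : ∀ x ∈ W, ∃ k < K, W.card < 2 * (ball G W x k).card := by
      intro x hx
      obtain ⟨k, hk, hk'⟩ := ball_growth (G := G) hx l K hKW
      exact ⟨k, hk, hcut x hx k hk'⟩
    have hconn : ∀ x ∈ W, ∀ y ∈ W, ∃ p : G.Walk x y, p.length ≤ 2 * K ∧
        ∀ w ∈ p.support, w ∈ W := by
      intro x hx y hy
      obtain ⟨k, hk, hk'⟩ := hbig x hx
      obtain ⟨j, hj, hj'⟩ := hbig y hy
      have hnd : ¬ Disjoint (ball G W x k) (ball G W y j) := by
        intro hd
        have h1 := card_union_of_disjoint hd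
        have h2 : (ball G W x k ∪ ball G W y j).card ≤ W.card :=
          card_le_card (union_subset (ball_subset hx k) (ball_subset hy j))
        omega
      obtain ⟨z, hz, hz'⟩ := Finset.not_disjoint_iff.1 hnd
      obtain ⟨p, hp, hps⟩ := ball_walk hx k z hz
      obtain ⟨q, hq, hqs⟩ := ball_walk hy j z hz'
      refine ⟨p.append q.reverse, ?_, ?_⟩
      · rw [SimpleGraph.Walk.length_append, SimpleGraph.Walk.length_reverse]; omega
      · intro w hw
        rw [SimpleGraph.Walk.mem_support_append_iff, SimpleGraph.Walk.support_reverse,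
          List.mem_reverse] at hw
        rcases hw with hw | hw
        · exact hps w hw
        · exact hqs w hw
    have hWne : W.Nonempty := by
      rw [← card_pos]; omega
    obtain ⟨r, hr⟩ := hWne
    have hZ : ∀ B ∈ M, ∃ Z : Finset V, Z ⊆ W ∧ Z.card ≤ 2 * K + 1 ∧ Touch G Z B ∧
        ∀ v ∈ Z, ∃ p : G.Walk r v, p.length ≤ 2 * K ∧ ∀ w ∈ p.support, w ∈ Z := by
      intro B hB
      obtain ⟨b, hb, y, hy, hby⟩ := hT B hB
      obtain ⟨p, hp, hps⟩ := hconn r hr y hy
      refine ⟨p.support.toFinset, ?_, ?_, ⟨y, ?_, b, hb, hby.symm⟩, ?_⟩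
      · intro w hw
        exact hps w (List.mem_toFinset.1 hw)
      · refine (List.toFinset_card_le _).trans ?_
        rw [SimpleGraph.Walk.length_support]; omega
      · rw [List.mem_toFinset]; exact p.end_mem_support
      · intro v hv
        rw [List.mem_toFinset] at hv
        refine ⟨p.takeUntil v hv, (p.length_takeUntil_le_length hv).trans hp, fun w hw => ?_⟩
        rw [List.mem_toFinset]
        exact p.support_takeUntil_subset_support hv hw
    choose! Z hZ1 hZ2 hZ3 hZ4 using hZ
    set T : Finset V := insert r (M.biUnion Z) with hTdef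
    have hTW : T ⊆ W := by
      intro v hv
      rw [hTdef, mem_insert, mem_biUnion] at hv
      rcases hv with rfl | ⟨B, hB, hv⟩
      · exact hr
      · exact hZ1 B hB hv
    have hTcard : T.card ≤ s := by
      have h1 : (M.biUnion Z).card ≤ M.card * (2 * K + 1) := card_biUnion_le_card_mul _ _ _ hZ2
      have h2 : T.card ≤ (M.biUnion Z).card + 1 := card_insert_le _ _
      have h3 : M.card * (2 * K + 1) ≤ h * (2 * K + 1) := Nat.mul_le_mul_right _ hMh.le
      omega
    have hrT : r ∈ T := mem_insert_self _ _
    have hTpos : 0 < T.card := card_pos.2 ⟨r, hrT⟩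
    have hZT : ∀ B ∈ M, Z B ⊆ T := fun B hB v hv =>
      mem_insert_of_mem (mem_biUnion.2 ⟨B, hB, hv⟩)
    have hTM : T ∉ M := fun h => st.MW T h r hrT hr
    have hcW : (W \ T).card = W.card - T.card := card_sdiff_of_subset hTW
    have hTle : T.card ≤ W.card := card_le_card hTW
    have hMc : (insert T M).card = M.card + 1 := card_insert_of_notMem hTM
    have hsumT : ∑ B ∈ insert T M, B.card = T.card + ∑ B ∈ M, B.card := sum_insert hTM
    have hs1 := st.sum
    have hlt : (W \ T).card * (h + 1) + (insert T M).card < W.card * (h + 1) + M.card := by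
      have h1 : (W \ T).card + 1 ≤ W.card := by omega
      have h2 := Nat.mul_le_mul_right (h + 1) h1
      rw [Nat.add_mul, Nat.one_mul] at h2
      omega
    have htouch : ∀ B ∈ M, Touch G T B := by
      intro B hB
      obtain ⟨z, hz, b, hb, hzb⟩ := hZ3 B hB
      exact ⟨z, hZT B hB hz, b, hb, hzb⟩
    refine ih ((W \ T).card * (h + 1) + (insert T M).card) (by omega) D S (W \ T) (insert T M)
      le_rfl ⟨?_, ?_, ?_, ?_, st.cardS, ?_, st.D3, ⟨?_, ?_, ?_⟩, ?_⟩
    · intro v
      rw [st.cover v, mem_sdiff]
      constructor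
      · rintro (h | h | h | ⟨B, hB, h⟩)
        · exact Or.inl h
        · exact Or.inr (Or.inl h)
        · by_cases h1 : v ∈ T
          · exact Or.inr (Or.inr (Or.inr ⟨T, mem_insert_self _ _, h1⟩))
          · exact Or.inr (Or.inr (Or.inl ⟨h, h1⟩))
        · exact Or.inr (Or.inr (Or.inr ⟨B, mem_insert_of_mem hB, h⟩))
      · rintro (h | h | h | ⟨B, hB, h⟩)
        · exact Or.inl h
        · exact Or.inr (Or.inl h)
        · exact Or.inr (Or.inr (Or.inl h.1))
        · rcases mem_insert.1 hB with rfl | hB
          · exact Or.inr (Or.inr (Or.inl (hTW h)))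
          · exact Or.inr (Or.inr (Or.inr ⟨B, hB, h⟩))
    · intro v hv hv'
      exact st.DW v hv (mem_sdiff.1 hv').1
    · intro B hB v hv hv'
      rw [mem_sdiff] at hv'
      rcases mem_insert.1 hB with rfl | hB
      · exact hv'.2 hv
      · exact st.MW B hB v hv hv'.1
    · intro d hd w hw
      exact st.adj d hd w (mem_sdiff.1 hw).1
    · rw [hsumT]; omega
    · intro B hB
      rcases mem_insert.1 hB with rfl | hB
      · refine ⟨r, hrT, fun v hv => ?_⟩
        rw [hTdef, mem_insert, mem_biUnion] at hv
        rcases hv with rfl | ⟨B, hB, hv⟩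
        · exact ⟨SimpleGraph.Walk.nil, Nat.zero_le _, fun w hw => by
            rw [SimpleGraph.Walk.support_nil, List.mem_singleton] at hw
            rw [hw]; exact hrT⟩
        · obtain ⟨p, hp, hps⟩ := hZ4 B hB v hv
          exact ⟨p, hp, fun w hw => hZT B hB (hps w hw)⟩
      · exact st.model.rad B hB
    · intro B hB B' hB' hne
      rcases mem_insert.1 hB with rfl | hB <;> rcases mem_insert.1 hB' with rfl | hB'
      · exact absurd rfl hne
      · rw [Finset.disjoint_left]
        exact fun v hv hv' => st.MW B' hB' v hv' (hTW hv)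
      · rw [Finset.disjoint_left]
        exact fun v hv hv' => st.MW B hB v hv (hTW hv')
      · exact st.model.disj B hB B' hB' hne
    · intro B hB B' hB' hne
      rcases mem_insert.1 hB with rfl | hB <;> rcases mem_insert.1 hB' with rfl | hB'
      · exact absurd rfl hne
      · exact htouch B' hB'
      · exact (htouch B hB).symm
      · exact st.model.touch B hB B' hB' hne
    · intro B hB
      rcases mem_insert.1 hB with rfl | hB
      · exact hTcard
      · exact st.small B hB

/-- **Separator theorem** (Plotkin, Rao, Smith). -/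
theorem separator (G : SimpleGraph V) (U : Finset V) (l K h : ℕ)
    (hno : ∀ M : Finset (Finset V), IsModel G (2 * K) M → M.card < h)
    (hK : U.card * l ^ K < (l + 1) ^ K) :
    HasSep G U l (h * (1 + h * (2 * K + 1))) := by
  classical
  refine sep_aux G U l K h _ hno le_rfl hK _ ∅ ∅ U ∅ le_rfl ⟨?_, ?_, ?_, ?_, ?_, ?_, ?_, ?_, ?_⟩
  · intro v; simp
  · simp
  · simp
  · simp
  · simp
  · simp
  · simp
  · exact ⟨by simp, by simp, by simp⟩
  · simp

end Pool.Agent.Helper234_Grid
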