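import Pool.Agent.Helper234_Grid.Defs
import Pool.Agent.Helper234_Grid.Rec
import Pool.Agent.Helper479.Bond.VK

/-!
# Topological graphs have the van Kampen property
-/

set_option autoImplicit false

namespace Pool.Agent.Helper234_Grid

open Finset

variable {V : Type}

/-- the set of the points of the arcs of a walk, and its first vertex -/
def drawn (D : TopologicalGraph V) {u v : V} (p : D.graph.Walk u v) : Set (ℝ × ℝ) :=
  {D.pos u} ∪ ⋃ e ∈ p.edges, D.arc e

theorem joinedIn_arc (D : TopologicalGraph V) {u v : V} (h : D.graph.Adj u v) :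
    JoinedIn (D.arc s(u, v)) (D.pos u) (D.pos v) := by
  obtain ⟨γ, hγ, -, h0, h1, hr⟩ := D.isArc u v h
  refine ⟨⟨⟨γ, hγ⟩, h0, h1⟩, fun t => ?_⟩
  rw [← hr]
  exact ⟨t, rfl⟩

theorem joinedIn_drawn (D : TopologicalGraph V) {u v : V} (p : D.graph.Walk u v) :
    JoinedIn (drawn D p) (D.pos u) (D.pos v) := by
  induction p with
  | nil => exact JoinedIn.refl (Or.inl rfl)
  | @cons u w v h q ih =>
    have hq : drawn D q ⊆ drawn D (SimpleGraph.Walk.cons h q) := by
      rintro z (hz | hz)
      · -- `pos w` lies on the first arc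
        rw [Set.mem_singleton_iff] at hz
        refine Or.inr (Set.mem_iUnion₂.2 ⟨s(u, w), ?_, ?_⟩)
        · rw [SimpleGraph.Walk.edges_cons]; exact List.mem_cons_self
        · rw [hz]; exact (joinedIn_arc D h).target_mem
      · obtain ⟨e, he, hz⟩ := Set.mem_iUnion₂.1 hz
        refine Or.inr (Set.mem_iUnion₂.2 ⟨e, ?_, hz⟩)
        rw [SimpleGraph.Walk.edges_cons]; exact List.mem_cons_of_mem _ he
    have ha : D.arc s(u, w) ⊆ drawn D (SimpleGraph.Walk.cons h q) := fun z hz =>
      Or.inr (Set.mem_iUnion₂.2 ⟨s(u, w), by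
        rw [SimpleGraph.Walk.edges_cons]; exact List.mem_cons_self, hz⟩)
    exact ((joinedIn_arc D h).mono ha).trans (ih.mono hq)

theorem drawn_disjoint (D : TopologicalGraph V) {u v u' v' : V} (p : D.graph.Walk u v)
    (q : D.graph.Walk u' v') (hd : ∀ w, w ∈ p.support → w ∉ q.support)
    (hc : ∀ e ∈ p.edges, ∀ f ∈ q.edges, ¬ D.Cross e f) :
    Disjoint (drawn D p) (drawn D q) := by
  rw [Set.disjoint_left]
  rintro z (hz | hz) (hz' | hz')
  · rw [Set.mem_singleton_iff] at hz hz'
    have := D.pos_injective (hz.symm.trans hz')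
    exact hd u p.start_mem_support (this ▸ q.start_mem_support)
  · rw [Set.mem_singleton_iff] at hz
    obtain ⟨f, hf, hz'⟩ := Set.mem_iUnion₂.1 hz'
    rw [hz] at hz'
    have := D.avoid f (q.edges_subset_edgeSet hf) u hz'
    exact hd u p.start_mem_support (mem_support_of_mem_edges' q hf this)
  · rw [Set.mem_singleton_iff] at hz'
    obtain ⟨e, he, hz⟩ := Set.mem_iUnion₂.1 hz
    rw [hz'] at hz
    have := D.avoid e (p.edges_subset_edgeSet he) u' hz
    exact hd u' (mem_support_of_mem_edges' p he this) q.start_mem_support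
  · obtain ⟨e, he, hz⟩ := Set.mem_iUnion₂.1 hz
    obtain ⟨f, hf, hz'⟩ := Set.mem_iUnion₂.1 hz'
    refine hc e he f hf ⟨?_, z, hz, hz', ?_, ?_⟩
    · rintro rfl
      induction e with
      | _ x y =>
        exact hd x (p.fst_mem_support_of_mem_edges he) (q.fst_mem_support_of_mem_edges hf)
    · intro w hw hzw
      rw [hzw] at hz'
      have := D.avoid f (q.edges_subset_edgeSet hf) w hz'
      exact hd w (mem_support_of_mem_edges' p he hw) (mem_support_of_mem_edges' q hf this)
    · intro w hw hzw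
      rw [hzw] at hz
      have := D.avoid e (p.edges_subset_edgeSet he) w hz
      exact hd w (mem_support_of_mem_edges' p he this) (mem_support_of_mem_edges' q hf hw)

theorem vk (D : TopologicalGraph V) : VK D.graph D.Cross := by
  intro a b p hp
  by_contra hcon
  push Not at hcon
  let e : ℝ × ℝ → ℂ := Complex.equivRealProdCLM.symm
  have hec : Continuous e := Complex.equivRealProdCLM.symm.continuous
  have hei : Function.Injective e := Complex.equivRealProdCLM.symm.injective
  let F : Fin 6 → Fin 3 := fun i => ⟨i.1 % 3, Nat.mod_lt _ (by norm_num)⟩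
  refine Pool.Agent.Helper479.Bond.VK.k33_joined
    (fun i => if i.1 < 3 then e (D.pos (a (F i))) else e (D.pos (b (F i))))
    (fun i j => e '' drawn D (p (F i) (F j))) ?_ ?_
  · intro i j hi hj
    simp only [if_pos hi, if_neg (not_lt.2 hj)]
    have h := joinedIn_drawn D (p (F i) (F j))
    exact ⟨h.somePath.map hec, fun t => ⟨_, h.somePath_mem t, rfl⟩⟩
  · intro i j i' j' hi hj hi' hj' hii hjj
    have h1 : F i ≠ F i' := by
      intro h
      simp only [F, Fin.mk.injEq] at h
      exact hii (Fin.ext (by omega))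
    have h2 : F j ≠ F j' := by
      intro h
      simp only [F, Fin.mk.injEq] at h
      exact hjj (Fin.ext (by omega))
    rw [Set.disjoint_image_iff hei]
    exact drawn_disjoint D _ _ (hp _ _ _ _ h1 h2) (fun e he f hf => hcon _ _ _ _ h1 h2 e he f hf)

theorem exists_mem (e : Sym2 V) : ∃ v, v ∈ e := by
  induction e with
  | _ x y => exact ⟨x, Sym2.mem_mk_left x y⟩

theorem hasNaturalGrid_of_grid (D : TopologicalGraph V) (k l t : ℕ) (hk : k ≤ t) (hl : l ≤ t)
    (h : Grid D.graph D.Cross t) : D.HasNaturalGrid k l := by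
  classical
  obtain ⟨e, f, he, hf, hee, hff, hef, hX⟩ := h
  have hei : Function.Injective e := by
    intro i j hij
    by_contra hne
    obtain ⟨v, hv⟩ := exists_mem (e i)
    exact hee i j hne v hv (hij ▸ hv)
  have hfi : Function.Injective f := by
    intro i j hij
    by_contra hne
    obtain ⟨v, hv⟩ := exists_mem (f i)
    exact hff i j hne v hv (hij ▸ hv)
  have hc1 : Function.Injective (fun i : Fin k => e (Fin.castLE hk i)) :=
    hei.comp (Fin.castLE_injective hk)
  have hc2 : Function.Injective (fun i : Fin l => f (Fin.castLE hl i)) :=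
    hfi.comp (Fin.castLE_injective hl)
  refine ⟨(univ : Finset (Fin k)).map ⟨_, hc1⟩, (univ : Finset (Fin l)).map ⟨_, hc2⟩,
    ?_, ?_, ?_, ?_, ?_, ?_, ?_⟩
  · intro x hx
    simp only [mem_coe, mem_map, mem_univ, true_and, Function.Embedding.coeFn_mk] at hx
    obtain ⟨i, rfl⟩ := hx
    exact he _
  · intro x hx
    simp only [mem_coe, mem_map, mem_univ, true_and, Function.Embedding.coeFn_mk] at hx
    obtain ⟨i, rfl⟩ := hx
    exact hf _
  · rw [Finset.disjoint_left]
    intro x hx hx'
    simp only [mem_map, mem_univ, true_and, Function.Embedding.coeFn_mk] at hx hx'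
    obtain ⟨i, rfl⟩ := hx
    obtain ⟨j, hj⟩ := hx'
    obtain ⟨v, hv⟩ := exists_mem (e (Fin.castLE hk i))
    exact hef _ _ v hv (hj ▸ hv)
  · rw [card_map, card_univ, Fintype.card_fin]
  · rw [card_map, card_univ, Fintype.card_fin]
  · intro x hx y hy
    simp only [mem_map, mem_univ, true_and, Function.Embedding.coeFn_mk] at hx hy
    obtain ⟨i, rfl⟩ := hx
    obtain ⟨j, rfl⟩ := hy
    exact hX _ _
  · intro x y hx hy hxy v hv
    simp only [mem_map, mem_univ, true_and, Function.Embedding.coeFn_mk] at hx hy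
    rcases hx with ⟨i, rfl⟩ | ⟨i, rfl⟩ <;> rcases hy with ⟨j, rfl⟩ | ⟨j, rfl⟩
    · exact hee _ _ (fun h => hxy (by rw [h])) v hv.1 hv.2
    · exact hef _ _ v hv.1 hv.2
    · exact hef _ _ v hv.2 hv.1
    · exact hff _ _ (fun h => hxy (by rw [h])) v hv.1 hv.2

theorem ncard_edgeSet_le_ee [Fintype V] (G : SimpleGraph V) :
    G.edgeSet.ncard ≤ ee G Finset.univ := by
  classical
  have h1 : G.edgeSet.ncard = G.edgeFinset.card := by
    rw [← SimpleGraph.coe_edgeFinset, Set.ncard_coe_finset]
  rw [h1, ee]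
  have h2 : G.edgeFinset ⊆ (((univ : Finset V) ×ˢ (univ : Finset V)).filter
      fun p => G.Adj p.1 p.2).image (fun p => s(p.1, p.2)) := by
    intro e he
    rw [SimpleGraph.mem_edgeFinset] at he
    induction e with
    | _ x y =>
      rw [mem_image]
      exact ⟨(x, y), mem_filter.2 ⟨mem_product.2 ⟨mem_univ _, mem_univ _⟩, he⟩, rfl⟩
  exact (card_le_card h2).trans card_image_le

/-- **The conjecture of Ackerman, Fox, Pach and Suk.** -/
theorem main (k l : ℕ) : ∃ c : ℕ, ∀ (V : Type) [Fintype V] (D : TopologicalGraph V),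
    ¬ D.HasNaturalGrid k l → D.graph.edgeSet.ncard ≤ c * Fintype.card V := by
  obtain ⟨C, hC⟩ := linear (max 1 (max k l)) (le_max_left _ _)
  refine ⟨C, fun V _ D hD => ?_⟩
  refine (ncard_edgeSet_le_ee D.graph).trans ?_
  refine hC V D.graph D.Cross (vk D) (fun hg => hD ?_) Finset.univ
  exact hasNaturalGrid_of_grid D k l _ (by omega) (by omega) hg

end Pool.Agent.Helper234_Grid
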